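import Mathlib

set_option autoImplicit false

open Filter Topology Set
open scoped ZeroAtInfty

namespace Pool.Agent.Results.MP_08c933_an.SeqNotOneSeq

/-! ### The notions of the question -/

section Notions

variable {𝕜 X : Type*} [RCLike 𝕜] [NormedAddCommGroup X] [NormedSpace 𝕜 X]

/-- The orbit of `x` under `T`, as a subset of `X` with its weak topology. -/
def weakOrbit (T : X →L[𝕜] X) (x : X) : Set (WeakSpace 𝕜 X) :=
  Set.range fun n : ℕ => toWeakSpace 𝕜 X ((T ^ n) x)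

/-- `T` is weakly sequentially hypercyclic: for some `x` the only weakly sequentially closed set
containing the orbit of `x` is the whole space. -/
def WeakSeqHypercyclic (T : X →L[𝕜] X) : Prop :=
  ∃ x : X, ∀ C : Set (WeakSpace 𝕜 X), IsSeqClosed C → weakOrbit T x ⊆ C → C = Set.univ

/-- `T` is weakly 1-sequentially hypercyclic: for some `x` every vector is the weak limit of a
sequence of elements of the orbit of `x`. -/
def WeakOneSeqHypercyclic (T : X →L[𝕜] X) : Prop :=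
  ∃ x : X, ∀ y : WeakSpace 𝕜 X, ∃ u : ℕ → WeakSpace 𝕜 X,
    (∀ n, u n ∈ weakOrbit T x) ∧ Tendsto u atTop (𝓝 y)

end Notions

/-! ### Generalities on `c_0(ℕ × ℤ)` -/

section Space

variable {𝕜 : Type*} [RCLike 𝕜]

/-- An element of `c_0` from a null function. -/
noncomputable def mkC (f : ℕ × ℤ → 𝕜) (hf : Tendsto f cofinite (𝓝 0)) : C₀(ℕ × ℤ, 𝕜) :=
  ⟨⟨f, continuous_of_discreteTopology⟩, by rw [cocompact_eq_cofinite]; exact hf⟩

@[simp] lemma mkC_apply (f : ℕ × ℤ → 𝕜) (hf : Tendsto f cofinite (𝓝 0)) (v : ℕ × ℤ) :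
    mkC f hf v = f v := rfl

lemma tendsto_coe (z : C₀(ℕ × ℤ, 𝕜)) : Tendsto z cofinite (𝓝 0) := by
  have := z.zero_at_infty'
  rwa [cocompact_eq_cofinite] at this

lemma norm_le_iff {f : C₀(ℕ × ℤ, 𝕜)} {C : ℝ} (hC : 0 ≤ C) : ‖f‖ ≤ C ↔ ∀ v, ‖f v‖ ≤ C := by
  rw [← ZeroAtInftyContinuousMap.norm_toBCF_eq_norm, BoundedContinuousFunction.norm_le hC]
  rfl

lemma norm_apply_le (f : C₀(ℕ × ℤ, 𝕜)) (v : ℕ × ℤ) : ‖f v‖ ≤ ‖f‖ :=
  (norm_le_iff (norm_nonneg _)).1 le_rfl v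

lemma finite_large (z : C₀(ℕ × ℤ, 𝕜)) {ε : ℝ} (hε : 0 < ε) : {v | ε ≤ ‖z v‖}.Finite := by
  have h := (Metric.tendsto_nhds.1 (tendsto_coe z)) ε hε
  rw [Filter.eventually_cofinite] at h
  refine h.subset ?_
  intro v hv
  simp only [mem_ofPred_eq, dist_zero_right, not_lt] at hv ⊢
  exact hv

/-- An element of `c_0` from a finitely supported function. -/
noncomputable def mkF (f : ℕ × ℤ → 𝕜) (hf : {v | f v ≠ 0}.Finite) : C₀(ℕ × ℤ, 𝕜) :=
  mkC f (by
    refine tendsto_const_nhds.congr' ?_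
    rw [Filter.EventuallyEq, Filter.eventually_cofinite]
    refine hf.subset ?_
    intro v hv
    simp only [mem_ofPred_eq] at hv ⊢
    exact fun h => hv h.symm)

@[simp] lemma mkF_apply (f : ℕ × ℤ → 𝕜) (hf : {v | f v ≠ 0}.Finite) (v : ℕ × ℤ) :
    mkF f hf v = f v := rfl

/-- Basis vectors. -/
noncomputable def bas (w : ℕ × ℤ) : C₀(ℕ × ℤ, 𝕜) :=
  mkF (fun v => if v = w then 1 else 0) (by
    refine (Set.finite_singleton w).subset ?_
    intro v hv
    by_contra h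
    simp only [mem_singleton_iff] at h
    simp [h] at hv)

lemma bas_apply (w v : ℕ × ℤ) : (bas w : C₀(ℕ × ℤ, 𝕜)) v = if v = w then 1 else 0 := rfl

/-- Evaluation. -/
noncomputable def ev (v : ℕ × ℤ) : C₀(ℕ × ℤ, 𝕜) →L[𝕜] 𝕜 :=
  LinearMap.mkContinuous
    { toFun := fun z => z v
      map_add' := fun x y => rfl
      map_smul' := fun c x => rfl } 1 (by
    intro z
    simpa using norm_apply_le z v)

@[simp] lemma ev_apply (v : ℕ × ℤ) (z : C₀(ℕ × ℤ, 𝕜)) : ev v z = z v := rfl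

lemma sum_bas_apply (F : Finset (ℕ × ℤ)) (c : ℕ × ℤ → 𝕜) (u : ℕ × ℤ) :
    (∑ v ∈ F, c v • (bas v : C₀(ℕ × ℤ, 𝕜))) u = if u ∈ F then c u else 0 := by
  rw [← ev_apply, map_sum]
  simp only [map_smul, ev_apply, bas_apply, smul_eq_mul, mul_ite, mul_one, mul_zero]
  rw [Finset.sum_ite_eq]

/-- Every element of `c_0` is the sum of its coordinates. -/
lemma hasSum_bas (z : C₀(ℕ × ℤ, 𝕜)) : HasSum (fun v => z v • (bas v : C₀(ℕ × ℤ, 𝕜))) z := by
  rw [HasSum, SummationFilter.unconditional_filter, Metric.tendsto_atTop]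
  intro ε hε
  refine ⟨(finite_large z (half_pos hε)).toFinset, ?_⟩
  intro F hF
  rw [dist_eq_norm]
  refine lt_of_le_of_lt ?_ (half_lt_self hε)
  rw [norm_le_iff (half_pos hε).le]
  intro v
  rw [ZeroAtInftyContinuousMap.sub_apply, sum_bas_apply]
  split_ifs with hv
  · rw [sub_self, norm_zero]
    exact (half_pos hε).le
  · have : v ∉ (finite_large z (half_pos hε)).toFinset := fun h => hv (hF h)
    rw [Set.Finite.mem_toFinset] at this
    simp only [mem_ofPred_eq, not_le] at this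
    rw [zero_sub, norm_neg]
    exact this.le

lemma summable_dual (φ : C₀(ℕ × ℤ, 𝕜) →L[𝕜] 𝕜) : Summable fun v => ‖φ (bas v)‖ := by
  refine summable_of_sum_le (c := ‖φ‖) (fun _ => norm_nonneg _) ?_
  intro F
  set c : ℕ × ℤ → 𝕜 := fun v => (starRingEnd 𝕜) (φ (bas v)) / (‖φ (bas v)‖ : 𝕜) with hc
  set g : C₀(ℕ × ℤ, 𝕜) := ∑ v ∈ F, c v • bas v with hg
  have hg1 : ‖g‖ ≤ 1 := by
    rw [norm_le_iff zero_le_one]
    intro v
    rw [hg, sum_bas_apply]
    split_ifs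
    · rw [hc]
      simp only [norm_div, RCLike.norm_conj, RCLike.norm_ofReal, abs_norm]
      exact div_self_le_one _
    · simp
  have h1 : φ g = ((∑ v ∈ F, ‖φ (bas v)‖ : ℝ) : 𝕜) := by
    rw [hg, map_sum]
    push_cast
    apply Finset.sum_congr rfl
    intro v _
    rw [map_smul, smul_eq_mul, hc]
    simp only
    by_cases h0 : φ (bas v) = 0
    · simp [h0]
    · have h2 : (‖φ (bas v)‖ : 𝕜) ≠ 0 := by
        simpa using h0
      rw [div_mul_eq_mul_div, RCLike.conj_mul, pow_two, mul_div_assoc, div_self h2, mul_one]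
  have h2 : ‖φ g‖ = ∑ v ∈ F, ‖φ (bas v)‖ := by
    rw [h1, RCLike.norm_ofReal, abs_of_nonneg (Finset.sum_nonneg fun _ _ => norm_nonneg _)]
  rw [← h2]
  calc ‖φ g‖ ≤ ‖φ‖ * ‖g‖ := φ.le_opNorm g
    _ ≤ ‖φ‖ * 1 := mul_le_mul_of_nonneg_left hg1 (norm_nonneg φ)
    _ = ‖φ‖ := mul_one _

/-- Bounded, coordinatewise convergent sequences converge weakly. -/
lemma weak_of_coord {u : ℕ → C₀(ℕ × ℤ, 𝕜)} {y : C₀(ℕ × ℤ, 𝕜)} {C : ℝ}
    (hC : ∀ n, ‖u n‖ ≤ C) (h : ∀ v, Tendsto (fun n => u n v) atTop (𝓝 (y v)))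
    (φ : C₀(ℕ × ℤ, 𝕜) →L[𝕜] 𝕜) : Tendsto (fun n => φ (u n)) atTop (𝓝 (φ y)) := by
  have key : ∀ z : C₀(ℕ × ℤ, 𝕜), φ z = ∑' v, z v * φ (bas v) := by
    intro z
    have := (hasSum_bas z).mapL φ
    simp only [map_smul, smul_eq_mul] at this
    exact this.tsum_eq.symm
  rw [key y, show (fun n => φ (u n)) = fun n => ∑' v, u n v * φ (bas v) from
    funext fun n => key (u n)]
  refine tendsto_tsum_of_dominated_convergence (bound := fun v => C * ‖φ (bas v)‖)
    ((summable_dual φ).mul_left C) ?_ ?_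
  · intro v
    exact (h v).mul_const _
  · refine Eventually.of_forall ?_
    intro n v
    rw [norm_mul]
    exact mul_le_mul_of_nonneg_right ((norm_apply_le _ _).trans (hC n)) (norm_nonneg _)

end Space

/-! ### The operator -/

section Operator

variable {𝕜 : Type*} [RCLike 𝕜]

/-- Weight of the edge from `(m, p - 1)` to `(m, p)`. -/
noncomputable def cA (v : ℕ × ℤ) : ℝ :=
  if v.1 = 0 then (if v.2 ≤ 0 then 2 else 1 / 4)
  else if v.2 = 1 - v.1 then (1 / 2) ^ (v.1 - 1)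
  else if v.2 ≤ 0 then 2 else 1 / 2

/-- Weight of the edge from `(0, - m)` to `(m, 1 - m)`. -/
noncomputable def cB (v : ℕ × ℤ) : ℝ := if v.1 ≠ 0 ∧ v.2 = 1 - v.1 then 2 else 0

lemma cA_pos (v : ℕ × ℤ) : 0 < cA v := by
  unfold cA
  split_ifs <;> positivity

lemma cA_le (v : ℕ × ℤ) : cA v ≤ 2 := by
  unfold cA
  split_ifs
  · norm_num
  · norm_num
  · have : ((1 : ℝ) / 2) ^ (v.1 - 1) ≤ 1 := pow_le_one₀ (by norm_num) (by norm_num)
    linarith
  · norm_num
  · norm_num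

lemma cB_nonneg (v : ℕ × ℤ) : 0 ≤ cB v := by
  unfold cB
  split_ifs <;> norm_num

lemma cB_le (v : ℕ × ℤ) : cB v ≤ 2 := by
  unfold cB
  split_ifs <;> norm_num

lemma tendsto_A (z : C₀(ℕ × ℤ, 𝕜)) :
    Tendsto (fun v : ℕ × ℤ => (cA v : 𝕜) * z (v.1, v.2 - 1)) cofinite (𝓝 0) := by
  have h1 : Tendsto (fun v : ℕ × ℤ => z (v.1, v.2 - 1)) cofinite (𝓝 0) := by
    refine (tendsto_coe z).comp (Function.Injective.tendsto_cofinite ?_)
    rintro ⟨a, b⟩ ⟨c, d⟩ h
    simp only [Prod.mk.injEq] at h ⊢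
    exact ⟨h.1, by omega⟩
  rw [tendsto_zero_iff_norm_tendsto_zero] at h1 ⊢
  refine squeeze_zero (fun _ => norm_nonneg _) (fun v => ?_) (by simpa using h1.const_mul 2)
  rw [norm_mul, RCLike.norm_ofReal, abs_of_pos (cA_pos v)]
  exact mul_le_mul_of_nonneg_right (cA_le v) (norm_nonneg _)

lemma tendsto_B (z : C₀(ℕ × ℤ, 𝕜)) :
    Tendsto (fun v : ℕ × ℤ => (cB v : 𝕜) * z (0, -(v.1 : ℤ))) cofinite (𝓝 0) := by
  rw [Metric.tendsto_nhds]
  intro ε hε
  rw [Filter.eventually_cofinite]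
  refine (((finite_large z (half_pos hε)).image
    (fun w : ℕ × ℤ => ((-w.2).toNat, 1 + w.2))).subset ?_)
  rintro ⟨m, p⟩ hv
  simp only [mem_ofPred_eq, dist_zero_right, not_lt] at hv
  by_cases hm : m ≠ 0 ∧ p = 1 - (m : ℤ)
  · refine ⟨(0, -(m : ℤ)), ?_, ?_⟩
    · simp only [mem_ofPred_eq]
      have h1 : cB (m, p) = 2 := by
        unfold cB
        rw [if_pos]
        exact hm
      rw [norm_mul, RCLike.norm_ofReal, h1, abs_of_pos (by norm_num : (0 : ℝ) < 2)] at hv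
      linarith
    · simp only [Prod.mk.injEq]
      constructor
      · omega
      · omega
  · exfalso
    have h1 : cB (m, p) = 0 := by
      unfold cB
      rw [if_neg]
      exact hm
    rw [h1] at hv
    simp at hv
    linarith

/-- The operator as a function. -/
noncomputable def opFun (z : C₀(ℕ × ℤ, 𝕜)) : C₀(ℕ × ℤ, 𝕜) :=
  mkC (fun v => (cA v : 𝕜) * z (v.1, v.2 - 1) + (cB v : 𝕜) * z (0, -(v.1 : ℤ)))
    (by simpa using (tendsto_A z).add (tendsto_B z))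

/-- The operator: a weighted shift on the rows `ℤ`, whose row `0` feeds the rows `m ≥ 1`. -/
noncomputable def op (𝕜 : Type*) [RCLike 𝕜] : C₀(ℕ × ℤ, 𝕜) →L[𝕜] C₀(ℕ × ℤ, 𝕜) :=
  LinearMap.mkContinuous
    { toFun := opFun
      map_add' := fun x y => by
        ext v
        simp only [opFun, mkC_apply, ZeroAtInftyContinuousMap.add_apply]
        ring
      map_smul' := fun c x => by
        ext v
        simp only [opFun, mkC_apply, ZeroAtInftyContinuousMap.smul_apply, RingHom.id_apply,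
          smul_eq_mul]
        ring } 4 (by
    intro z
    have h0 : 0 ≤ 4 * ‖z‖ := by positivity
    rw [norm_le_iff h0]
    intro v
    simp only [LinearMap.coe_mk, AddHom.coe_mk, opFun, mkC_apply]
    refine (norm_add_le _ _).trans ?_
    rw [norm_mul, norm_mul, RCLike.norm_ofReal, RCLike.norm_ofReal, abs_of_pos (cA_pos v),
      abs_of_nonneg (cB_nonneg v)]
    have h1 := mul_le_mul (cA_le v) (norm_apply_le z (v.1, v.2 - 1)) (norm_nonneg _)
      (by norm_num)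
    have h2 := mul_le_mul (cB_le v) (norm_apply_le z (0, -(v.1 : ℤ))) (norm_nonneg _)
      (by norm_num)
    linarith)

lemma op_apply (z : C₀(ℕ × ℤ, 𝕜)) (m : ℕ) (p : ℤ) :
    op 𝕜 z (m, p) = (cA (m, p) : 𝕜) * z (m, p - 1) + (cB (m, p) : 𝕜) * z (0, -(m : ℤ)) := rfl

lemma op_pow_succ (n : ℕ) (z : C₀(ℕ × ℤ, 𝕜)) : (op 𝕜 ^ (n + 1)) z = op 𝕜 ((op 𝕜 ^ n) z) := by
  rw [pow_succ']
  rfl

lemma op_pow_succ' (n : ℕ) (z : C₀(ℕ × ℤ, 𝕜)) : (op 𝕜 ^ (n + 1)) z = (op 𝕜 ^ n) (op 𝕜 z) := by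
  rw [pow_succ]
  rfl

/-- Ratio between the rows `m ≥ 1` and the row `0`. -/
noncomputable def cC (p : ℤ) : ℝ := 2 ^ p.toNat

lemma cC_pos (p : ℤ) : 0 < cC p := by unfold cC; positivity

lemma one_le_cC (p : ℤ) : 1 ≤ cC p := by
  unfold cC
  exact one_le_pow₀ (by norm_num)

/-- The key identity: the row `m` remembers the row `0`. -/
lemma op_diff (z : C₀(ℕ × ℤ, 𝕜)) (m : ℕ) (hm : 1 ≤ m) (j : ℕ) :
    ((op 𝕜 ^ (j + 1)) z) (m, -(m : ℤ) + j + 1)
      - (cC (-(m : ℤ) + j + 1) : 𝕜) * ((op 𝕜 ^ (j + 1)) z) (0, -(m : ℤ) + j + 1) =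
    (((if j + 1 ≤ m then (1 / 2) ^ (m - 1 - j) else (1 / 2) ^ (j + 1 - m) : ℝ)) : 𝕜) *
      z (m, -(m : ℤ)) := by
  induction j with
  | zero =>
    have e1 : (-(m : ℤ) + ((0 : ℕ) : ℤ) + 1) = 1 - m := by push_cast; ring
    rw [e1]
    simp only [zero_add, pow_one, op_apply]
    have a1 : cA (m, 1 - (m : ℤ)) = (1 / 2) ^ (m - 1) := by
      unfold cA
      rw [if_neg (by simp; omega), if_pos rfl]
    have a2 : cB (m, 1 - (m : ℤ)) = 2 := by
      unfold cB
      rw [if_pos]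
      exact ⟨by simp; omega, rfl⟩
    have a3 : cA (0, 1 - (m : ℤ)) = 2 := by
      unfold cA
      rw [if_pos rfl, if_pos]
      simp
      omega
    have a4 : cB (0, 1 - (m : ℤ)) = 0 := by
      unfold cB
      simp
    have a5 : cC (1 - (m : ℤ)) = 1 := by
      unfold cC
      rw [Int.toNat_of_nonpos (by omega)]
      simp
    rw [a1, a2, a3, a4, a5, if_pos hm]
    have e2 : (1 - (m : ℤ) - 1) = -m := by ring
    rw [e2]
    simp
  | succ j ih =>
    rw [op_pow_succ, op_apply, op_apply]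
    set y := (op 𝕜 ^ (j + 1)) z with hy
    have e1 : (-(m : ℤ) + ((j + 1 : ℕ) : ℤ) + 1 - 1) = -(m : ℤ) + j + 1 := by push_cast; ring
    have e2 : (-(m : ℤ) + ((j + 1 : ℕ) : ℤ) + 1) = -(m : ℤ) + j + 2 := by push_cast; ring
    rw [e1, e2]
    have b1 : cB (m, -(m : ℤ) + j + 2) = 0 := by
      unfold cB
      rw [if_neg]
      simp
      omega
    have b2 : cB (0, -(m : ℤ) + j + 2) = 0 := by
      unfold cB
      simp
    have a1 : cA (m, -(m : ℤ) + j + 2) = if j + 2 ≤ m then 2 else 1 / 2 := by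
      unfold cA
      rw [if_neg (by simp; omega), if_neg (by simp; omega)]
      simp only
      split_ifs <;> first | rfl | omega
    have a2 : cA (0, -(m : ℤ) + j + 2) = if j + 2 ≤ m then 2 else 1 / 4 := by
      unfold cA
      rw [if_pos rfl]
      simp only
      split_ifs <;> first | rfl | omega
    have c1 : cC (-(m : ℤ) + j + 2) * cA (0, -(m : ℤ) + j + 2) =
        cA (m, -(m : ℤ) + j + 2) * cC (-(m : ℤ) + j + 1) := by
      rw [a1, a2]
      unfold cC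
      split_ifs with h
      · rw [Int.toNat_of_nonpos (by omega), Int.toNat_of_nonpos (by omega)]
        norm_num
      · have : (-(m : ℤ) + j + 2).toNat = (-(m : ℤ) + j + 1).toNat + 1 := by omega
        rw [this, pow_succ]
        ring
    have c2 : (if j + 1 + 1 ≤ m then (1 / 2) ^ (m - 1 - (j + 1))
          else (1 / 2) ^ (j + 1 + 1 - m) : ℝ) =
        cA (m, -(m : ℤ) + j + 2) *
        (if j + 1 ≤ m then (1 / 2) ^ (m - 1 - j) else (1 / 2) ^ (j + 1 - m) : ℝ) := by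
      rw [a1]
      by_cases h1 : j + 2 ≤ m
      · rw [if_pos (by omega), if_pos h1, if_pos (by omega)]
        have : m - 1 - j = (m - 1 - (j + 1)) + 1 := by omega
        rw [this, pow_succ]
        ring
      · rw [if_neg (by omega), if_neg h1]
        by_cases h2 : j + 1 ≤ m
        · have : j + 1 = m := by omega
          rw [if_pos h2]
          have e3 : m - 1 - j = 0 := by omega
          have e4 : j + 1 + 1 - m = 1 := by omega
          rw [e3, e4]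
          norm_num
        · rw [if_neg h2]
          have : j + 1 + 1 - m = (j + 1 - m) + 1 := by omega
          rw [this, pow_succ]
          ring
    rw [c2, b1, b2]
    have c3 : (cC (-(m : ℤ) + j + 2) : 𝕜) * (cA (0, -(m : ℤ) + j + 2) : 𝕜) =
        (cA (m, -(m : ℤ) + j + 2) : 𝕜) * (cC (-(m : ℤ) + j + 1) : 𝕜) := by
      exact_mod_cast congrArg (fun r : ℝ => (r : 𝕜)) c1
    rw [RCLike.ofReal_mul, mul_assoc, ← ih]
    rw [mul_sub, ← mul_assoc (cA (m, -(m : ℤ) + j + 2) : 𝕜) (cC (-(m : ℤ) + j + 1) : 𝕜), ← c3]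
    push_cast
    ring

/-- Consequence: the size of the coordinate `(0, p)` at times `n > p`. -/
lemma op_bound (z : C₀(ℕ × ℤ, 𝕜)) (p n : ℕ) (hn : p < n) :
    2 ^ p * ‖((op 𝕜 ^ n) z) (0, (p : ℤ))‖ ≤ ‖(op 𝕜 ^ n) z‖ + ‖z‖ := by
  have h := op_diff z (n - p) (by omega) (n - 1)
  have e1 : (n - 1 + 1) = n := by omega
  have e2 : (-((n - p : ℕ) : ℤ) + ((n - 1 : ℕ) : ℤ) + 1) = (p : ℤ) := by
    have : ((n - p : ℕ) : ℤ) = n - p := by omega
    have : ((n - 1 : ℕ) : ℤ) = n - 1 := by omega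
    omega
  rw [e1, e2] at h
  have e3 : cC (p : ℤ) = 2 ^ p := by
    unfold cC
    simp
  rw [e3] at h
  set γ : ℝ := (if n ≤ n - p then (1 / 2) ^ (n - p - 1 - (n - 1)) else (1 / 2) ^ (n - (n - p)))
    with hγ
  have hγ0 : 0 ≤ γ := by rw [hγ]; split_ifs <;> positivity
  have hγ1 : γ ≤ 1 := by
    rw [hγ]
    split_ifs <;> exact pow_le_one₀ (by norm_num) (by norm_num)
  set a := ((op 𝕜 ^ n) z) (n - p, (p : ℤ)) with ha
  set b := ((op 𝕜 ^ n) z) (0, (p : ℤ)) with hb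
  have h1 : (((2 : ℝ) ^ p : ℝ) : 𝕜) * b = a - (γ : 𝕜) * z (n - p, -((n - p : ℕ) : ℤ)) := by
    rw [← h]
    ring
  have h2 : 2 ^ p * ‖b‖ = ‖(((2 : ℝ) ^ p : ℝ) : 𝕜) * b‖ := by
    rw [norm_mul, RCLike.norm_ofReal, abs_of_pos (by positivity)]
  rw [h2, h1]
  refine (norm_sub_le _ _).trans ?_
  have h3 : ‖a‖ ≤ ‖(op 𝕜 ^ n) z‖ := norm_apply_le _ _
  have h4 : ‖(γ : 𝕜) * z (n - p, -((n - p : ℕ) : ℤ))‖ ≤ ‖z‖ := by
    rw [norm_mul, RCLike.norm_ofReal, abs_of_nonneg hγ0]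
    calc γ * ‖z (n - p, -((n - p : ℕ) : ℤ))‖ ≤ 1 * ‖z‖ :=
          mul_le_mul hγ1 (norm_apply_le _ _) (norm_nonneg _) zero_le_one
      _ = ‖z‖ := one_mul _
  linarith

/-! ### Lines: decay and sources -/

/-- The weight of the edge from position `p` to position `p + 1` seen on the whole system. -/
noncomputable def dd (p : ℤ) : ℝ := if p < 0 then 2 else 1 / 2

lemma line_decay {f : ℤ → C₀(ℕ × ℤ, 𝕜)} {p : ℤ}
    (hf : ∀ i : ℕ, 0 ≤ p + i → op 𝕜 (f (p + i)) = ((1 / 2 : ℝ) : 𝕜) • f (p + i + 1))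
    {w : ℤ → 𝕜} (hw : ∀ i : ℕ, op 𝕜 (f (p + i)) = w (p + i) • f (p + i + 1))
    (h1 : ∀ q, ‖f q‖ ≤ 1) : Tendsto (fun n : ℕ => (op 𝕜 ^ n) (f p)) atTop (𝓝 0) := by
  -- after some time the position is nonnegative
  set n0 : ℕ := (-p).toNat with hn0
  have hpos : ∀ i : ℕ, 0 ≤ p + (n0 + i : ℕ) := by intro i; push_cast; omega
  have hA : ∀ n : ℕ, ∃ c : 𝕜, (op 𝕜 ^ n) (f p) = c • f (p + n) := by
    intro n
    induction n with
    | zero => exact ⟨1, by simp⟩
    | succ n ih =>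
      obtain ⟨c, hc⟩ := ih
      refine ⟨c * w (p + n), ?_⟩
      rw [op_pow_succ, hc, map_smul, hw, smul_smul]
      congr 2
      push_cast
      ring
  obtain ⟨c, hc⟩ := hA n0
  have hB : ∀ n : ℕ, (op 𝕜 ^ (n0 + n)) (f p) =
      (c * (((1 / 2 : ℝ) ^ n : ℝ) : 𝕜)) • f (p + (n0 + n : ℕ)) := by
    intro n
    induction n with
    | zero => simp [hc]
    | succ n ih =>
      rw [← add_assoc, op_pow_succ, ih, map_smul, hf _ (hpos n), smul_smul, pow_succ]
      have e1 : (p + ((n0 + n : ℕ) : ℤ) + 1) = p + ((n0 + n + 1 : ℕ) : ℤ) := by push_cast; ring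
      rw [e1]
      congr 1
      push_cast
      ring
  rw [← tendsto_add_atTop_iff_nat n0, tendsto_zero_iff_norm_tendsto_zero]
  have hC : Tendsto (fun n : ℕ => ‖c‖ * (1 / 2 : ℝ) ^ n) atTop (𝓝 0) := by
    simpa using (tendsto_pow_atTop_nhds_zero_of_lt_one (by norm_num : (0 : ℝ) ≤ 1 / 2)
      (by norm_num)).const_mul ‖c‖
  refine squeeze_zero (fun _ => norm_nonneg _) (fun n => ?_) hC
  rw [add_comm n n0, hB, norm_smul, norm_mul, RCLike.norm_ofReal,
    abs_of_nonneg (by positivity : (0 : ℝ) ≤ (1 / 2) ^ n)]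
  calc ‖c‖ * (1 / 2) ^ n * ‖f (p + (n0 + n : ℕ))‖ ≤ ‖c‖ * (1 / 2) ^ n * 1 :=
        mul_le_mul_of_nonneg_left (h1 _) (by positivity)
    _ = _ := mul_one _

lemma line_source {f : ℤ → C₀(ℕ × ℤ, 𝕜)} {q : ℤ} {w : ℤ → ℝ} {n : ℕ}
    (hf : ∀ j < n, op 𝕜 (f (q - 1 - (j : ℕ))) = (w (q - 1 - (j : ℕ)) : 𝕜) • f (q - (j : ℕ))) :
    (op 𝕜 ^ n) (f (q - n)) = ((∏ j ∈ Finset.range n, w (q - 1 - (j : ℕ)) : ℝ) : 𝕜) • f q := by
  induction n with
  | zero => simp
  | succ n ih =>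
    have h1 := hf n (Nat.lt_succ_self n)
    have e1 : (q - ((n + 1 : ℕ) : ℤ)) = q - 1 - n := by push_cast; ring
    rw [op_pow_succ', e1, h1, map_smul, ih (fun j hj => hf j (by omega)), smul_smul,
      Finset.prod_range_succ]
    congr 1
    push_cast
    ring

lemma prod_inv_tendsto {w : ℤ → ℝ} {L : ℕ} (hL : ∀ p : ℤ, p ≤ -L → w p = 2)
    (q : ℤ) : Tendsto (fun n : ℕ => (∏ j ∈ Finset.range n, w (q - 1 - (j : ℕ)))⁻¹)
      atTop (𝓝 0) := by
  set n0 : ℕ := (q + L).toNat with hn0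
  have hB : ∀ n : ℕ, (∏ j ∈ Finset.range (n + n0), w (q - 1 - (j : ℕ))) =
      (∏ j ∈ Finset.range n0, w (q - 1 - (j : ℕ))) * 2 ^ n := by
    intro n
    induction n with
    | zero => simp
    | succ n ih =>
      have e : n + 1 + n0 = (n + n0) + 1 := by ring
      rw [e, Finset.prod_range_succ, ih, hL, pow_succ]
      · ring
      · push_cast
        omega
  rw [← tendsto_add_atTop_iff_nat n0]
  simp only [hB, mul_inv]
  set P := (∏ j ∈ Finset.range n0, w (q - 1 - (j : ℕ)))⁻¹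
  have h2 : Tendsto (fun n : ℕ => P * ((2 : ℝ) ^ n)⁻¹) atTop (𝓝 (P * 0)) := by
    apply Tendsto.const_mul
    have := tendsto_pow_atTop_nhds_zero_of_lt_one (by norm_num : (0 : ℝ) ≤ 1 / 2)
      (by norm_num : (1 : ℝ) / 2 < 1)
    simpa [one_div, inv_pow] using this
  simpa using h2

/-! ### The rows `m ≥ 1` -/

lemma bas_norm_le (v : ℕ × ℤ) : ‖(bas v : C₀(ℕ × ℤ, 𝕜))‖ ≤ 1 := by
  rw [norm_le_iff zero_le_one]
  intro u
  rw [bas_apply]
  split_ifs <;> simp

lemma op_bas (m : ℕ) (hm : 1 ≤ m) (p : ℤ) :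
    op 𝕜 (bas (m, p)) = (cA (m, p + 1) : 𝕜) • bas (m, p + 1) := by
  ext ⟨m', p'⟩
  rw [op_apply, ZeroAtInftyContinuousMap.smul_apply, bas_apply, bas_apply, bas_apply]
  rw [if_neg (by simp; omega : ¬ ((0, -(m' : ℤ)) : ℕ × ℤ) = (m, p))]
  by_cases h : m' = m ∧ p' = p + 1
  · obtain ⟨rfl, rfl⟩ := h
    simp
  · rw [if_neg, if_neg]
    · simp
    · simpa using h
    · simp only [Prod.mk.injEq]
      intro h2
      exact h ⟨h2.1, by omega⟩

lemma decay_row (m : ℕ) (hm : 1 ≤ m) (p : ℤ) :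
    Tendsto (fun n : ℕ => (op 𝕜 ^ n) (bas (m, p))) atTop (𝓝 0) := by
  refine line_decay (f := fun p => bas (m, p)) (w := fun p => (cA (m, p + 1) : 𝕜)) ?_ ?_ ?_
  · intro i hi
    rw [op_bas m hm]
    congr 2
    unfold cA
    simp only
    rw [if_neg (by omega), if_neg (by omega), if_neg (by omega)]
  · intro i
    exact op_bas m hm _
  · intro q
    exact bas_norm_le _

/-- Exact targets: vectors which are reached exactly at all large times from small vectors. -/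
def Exact (d : C₀(ℕ × ℤ, 𝕜)) : Prop :=
  ∀ ε > 0, ∀ᶠ n in atTop, ∃ s : C₀(ℕ × ℤ, 𝕜), ‖s‖ < ε ∧ (op 𝕜 ^ n) s = d

lemma Exact.add {d d' : C₀(ℕ × ℤ, 𝕜)} (h : Exact d) (h' : Exact d') : Exact (d + d') := by
  intro ε hε
  filter_upwards [h (ε / 2) (half_pos hε), h' (ε / 2) (half_pos hε)] with n h1 h2
  obtain ⟨s, hs, hs'⟩ := h1
  obtain ⟨t, ht, ht'⟩ := h2
  refine ⟨s + t, ?_, by rw [map_add, hs', ht']⟩
  calc ‖s + t‖ ≤ ‖s‖ + ‖t‖ := norm_add_le _ _
    _ < ε := by linarith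

lemma Exact.zero : Exact (0 : C₀(ℕ × ℤ, 𝕜)) := by
  intro ε hε
  refine Eventually.of_forall fun n => ⟨0, by simpa using hε, by simp⟩

lemma exact_bas (m : ℕ) (hm : 1 ≤ m) (q : ℤ) : Exact (bas (m, q) : C₀(ℕ × ℤ, 𝕜)) := by
  intro ε hε
  have hL : ∀ p : ℤ, p ≤ -((m + 1 : ℕ) : ℤ) → cA (m, p + 1) = 2 := by
    intro p hp
    unfold cA
    simp only
    push_cast at hp
    rw [if_neg (by omega), if_neg (by omega), if_pos (by omega)]
  have ht := prod_inv_tendsto (w := fun p => cA (m, p + 1)) hL q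
  filter_upwards [ht.eventually (gt_mem_nhds hε)] with n hn
  set P : ℝ := ∏ j ∈ Finset.range n, cA (m, q - 1 - (j : ℕ) + 1) with hP
  have hPpos : 0 < P := Finset.prod_pos fun _ _ => cA_pos _
  refine ⟨((P⁻¹ : ℝ) : 𝕜) • bas (m, q - n), ?_, ?_⟩
  · rw [norm_smul, RCLike.norm_ofReal, abs_of_pos (by positivity)]
    calc P⁻¹ * ‖(bas (m, q - n) : C₀(ℕ × ℤ, 𝕜))‖ ≤ P⁻¹ * 1 :=
          mul_le_mul_of_nonneg_left (bas_norm_le _) (by positivity)
      _ = P⁻¹ := mul_one _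
      _ < ε := hn
  · have h1 := line_source (𝕜 := 𝕜) (f := fun p => bas (m, p)) (q := q)
      (w := fun p => cA (m, p + 1)) (n := n) (by
        intro j _
        rw [op_bas m hm]
        congr 3
        ring)
    rw [map_smul, h1, smul_smul, ← hP, ← RCLike.ofReal_mul, inv_mul_cancel₀ hPpos.ne']
    simp

/-! ### The row `0` -/

/-- The normalised row-0 vector together with its copies in the rows `m ≤ N`. -/
noncomputable def EE (p : ℤ) (N : ℕ) : C₀(ℕ × ℤ, 𝕜) :=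
  mkF (fun v => if v.2 = p then (if v.1 = 0 then (((cC p)⁻¹ : ℝ) : 𝕜) else
    if v.1 ≤ N ∧ -p < v.1 then 1 else 0) else 0) (by
    refine ((Finset.range (N + 1) ×ˢ {p}).finite_toSet).subset ?_
    rintro ⟨m, p'⟩ hv
    simp only [Finset.coe_product, Finset.coe_range, Finset.coe_singleton, mem_prod, mem_Iio,
      mem_singleton_iff]
    simp only [mem_ofPred_eq] at hv
    by_contra hcon
    apply hv
    split_ifs <;> first | rfl | (exfalso; apply hcon; constructor <;> omega))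

lemma EE_apply (p : ℤ) (N : ℕ) (m : ℕ) (p' : ℤ) : (EE p N : C₀(ℕ × ℤ, 𝕜)) (m, p') =
    if p' = p then (if m = 0 then (((cC p)⁻¹ : ℝ) : 𝕜) else
    if m ≤ N ∧ -p < m then 1 else 0) else 0 := rfl

lemma EE_norm_le (p : ℤ) (N : ℕ) : ‖(EE p N : C₀(ℕ × ℤ, 𝕜))‖ ≤ 1 := by
  rw [norm_le_iff zero_le_one]
  rintro ⟨m, p'⟩
  rw [EE_apply]
  have h1 : (cC p)⁻¹ ≤ 1 := inv_le_one_of_one_le₀ (one_le_cC p)
  have h2 : 0 < (cC p)⁻¹ := inv_pos.2 (cC_pos p)
  split_ifs
  · rw [RCLike.norm_ofReal, abs_of_pos h2]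
    exact h1
  · simp
  · simp
  · simp

lemma op_EE (p : ℤ) (N : ℕ) (hN : -(N : ℤ) ≤ p) :
    op 𝕜 (EE p N) = (dd p : 𝕜) • EE (p + 1) N := by
  ext ⟨m, p'⟩
  rw [op_apply, ZeroAtInftyContinuousMap.smul_apply, EE_apply, EE_apply, EE_apply]
  by_cases hp : p' = p + 1
  · subst hp
    rw [if_pos (by ring : p + 1 - 1 = p), if_pos rfl, smul_eq_mul]
    by_cases hm : m = 0
    · subst hm
      rw [if_pos rfl, if_pos rfl]
      have b1 : cB (0, p + 1) = 0 := by unfold cB; simp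
      rw [b1]
      have : cA (0, p + 1) * (cC p)⁻¹ = dd p * (cC (p + 1))⁻¹ := by
        unfold cA dd cC
        simp only [if_true]
        by_cases h0 : p < 0
        · rw [if_pos h0, if_pos (by omega), Int.toNat_of_nonpos (by omega),
            Int.toNat_of_nonpos (by omega)]
        · rw [if_neg h0, if_neg (by omega)]
          have : (p + 1).toNat = p.toNat + 1 := by omega
          rw [this, pow_succ, mul_inv]
          ring
      have h2 := congrArg (fun r : ℝ => (r : 𝕜)) this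
      simp only [RCLike.ofReal_mul] at h2
      rw [h2]
      simp
    · rw [if_neg hm, if_neg hm, if_pos rfl]
      by_cases h1 : -p < (m : ℤ)
      · -- interior of the row
        have b1 : cB (m, p + 1) = 0 := by
          unfold cB
          rw [if_neg]
          simp
          omega
        have a1 : cA (m, p + 1) = dd p := by
          unfold cA dd
          simp only
          rw [if_neg hm, if_neg (by omega)]
          split_ifs <;> first | rfl | omega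
        rw [b1, a1, RCLike.ofReal_zero, zero_mul, add_zero]
        by_cases h2 : m ≤ N
        · rw [if_pos ⟨h2, h1⟩, if_pos ⟨h2, by omega⟩]
        · rw [if_neg (fun h => h2 h.1), if_neg (fun h => h2 h.1)]
      · rw [if_neg (fun h => h1 h.2)]
        by_cases h3 : (m : ℤ) = -p
        · have hp0 : p < 0 := by omega
          have b1 : cB (m, p + 1) = 2 := by
            unfold cB
            rw [if_pos]
            exact ⟨hm, by simp only; omega⟩
          have a1 : dd p = 2 := by unfold dd; rw [if_pos hp0]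
          have c1 : cC p = 1 := by
            unfold cC
            rw [Int.toNat_of_nonpos (by omega)]
            simp
          rw [b1, a1, c1, if_pos (by omega), if_pos ⟨by omega, by omega⟩]
          simp
        · have b1 : cB (m, p + 1) = 0 := by
            unfold cB
            rw [if_neg]
            simp only
            intro h
            omega
          rw [b1, RCLike.ofReal_zero, zero_mul, add_zero,
            if_neg (by omega : ¬ (m ≤ N ∧ -(p + 1) < (m : ℤ)))]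
          simp
  · rw [if_neg (by omega : ¬ p' - 1 = p), if_neg hp]
    by_cases hb : m ≠ 0 ∧ p' = 1 - (m : ℤ)
    · rw [if_neg (by omega)]
      simp
    · have b1 : cB (m, p') = 0 := by
        unfold cB
        rw [if_neg]
        exact hb
      rw [b1]
      simp

lemma decay_row_zero (p : ℤ) :
    Tendsto (fun n : ℕ => (op 𝕜 ^ n) (bas (0, p))) atTop (𝓝 0) := by
  have h1 : (bas (0, p) : C₀(ℕ × ℤ, 𝕜)) = (cC p : 𝕜) • EE p (-p).toNat := by
    ext ⟨m, p'⟩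
    rw [ZeroAtInftyContinuousMap.smul_apply, EE_apply, bas_apply]
    by_cases hp : p' = p
    · subst hp
      rw [if_pos rfl]
      by_cases hm : m = 0
      · subst hm
        rw [if_pos rfl, if_pos rfl, smul_eq_mul, ← RCLike.ofReal_mul,
          mul_inv_cancel₀ (cC_pos _).ne']
        simp
      · rw [if_neg hm, if_neg (by simpa using hm), if_neg (by omega)]
        simp
    · rw [if_neg hp, if_neg (by simpa using fun _ => hp)]
      simp
  have h2 : Tendsto (fun n : ℕ => (op 𝕜 ^ n) (EE p (-p).toNat)) atTop (𝓝 0) := by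
    refine line_decay (f := fun q => EE q (-p).toNat) (w := fun q => (dd q : 𝕜)) ?_ ?_ ?_
    · intro i hi
      rw [op_EE _ _ (by omega)]
      congr 2
      unfold dd
      rw [if_neg (by omega)]
    · intro i
      exact op_EE _ _ (by omega)
    · intro q
      exact EE_norm_le _ _
  rw [h1]
  simp only [map_smul]
  simpa using h2.const_smul (cC p : 𝕜)

/-- The copies of a row-0 basis vector in the rows `1 ≤ m ≤ M`. -/
noncomputable def BB (q : ℤ) (M : ℕ) : C₀(ℕ × ℤ, 𝕜) :=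
  mkF (fun v => if v.2 = q ∧ v.1 ≠ 0 ∧ v.1 ≤ M ∧ -q < v.1 then 1 else 0) (by
    refine ((Finset.range (M + 1) ×ˢ {q}).finite_toSet).subset ?_
    rintro ⟨m, p'⟩ hv
    simp only [Finset.coe_product, Finset.coe_range, Finset.coe_singleton, mem_prod, mem_Iio,
      mem_singleton_iff]
    simp only [mem_ofPred_eq] at hv
    by_contra hcon
    apply hv
    rw [if_neg]
    intro h
    apply hcon
    constructor <;> omega)

lemma BB_apply (q : ℤ) (M : ℕ) (m : ℕ) (p : ℤ) : (BB q M : C₀(ℕ × ℤ, 𝕜)) (m, p) =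
    if p = q ∧ m ≠ 0 ∧ m ≤ M ∧ -q < m then 1 else 0 := rfl

lemma exact_BB (q : ℤ) (M : ℕ) : Exact (BB q M : C₀(ℕ × ℤ, 𝕜)) := by
  induction M with
  | zero =>
    have : (BB q 0 : C₀(ℕ × ℤ, 𝕜)) = 0 := by
      ext ⟨m, p⟩
      rw [BB_apply, if_neg (by omega)]
      rfl
    rw [this]
    exact Exact.zero
  | succ M ih =>
    by_cases h : -q < ((M + 1 : ℕ) : ℤ)
    · have : (BB q (M + 1) : C₀(ℕ × ℤ, 𝕜)) = BB q M + bas (M + 1, q) := by
        ext ⟨m, p⟩
        rw [ZeroAtInftyContinuousMap.add_apply, BB_apply, BB_apply, bas_apply]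
        by_cases h1 : m = M + 1 ∧ p = q
        · obtain ⟨rfl, rfl⟩ := h1
          rw [if_pos ⟨rfl, by omega, le_rfl, h⟩, if_neg (by omega), if_pos rfl]
          simp
        · have h2 : ¬ ((m, p) : ℕ × ℤ) = (M + 1, q) := by
            simpa using h1
          rw [if_neg h2, add_zero]
          congr 1
          apply propext
          constructor
          · rintro ⟨a, b, c, d⟩
            exact ⟨a, b, by omega, d⟩
          · rintro ⟨a, b, c, d⟩
            exact ⟨a, b, by omega, d⟩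
      rw [this]
      exact ih.add (exact_bas _ (by omega) _)
    · have : (BB q (M + 1) : C₀(ℕ × ℤ, 𝕜)) = BB q M := by
        ext ⟨m, p⟩
        rw [BB_apply, BB_apply]
        congr 1
        apply propext
        constructor
        · rintro ⟨a, b, c, d⟩
          exact ⟨a, b, by omega, d⟩
        · rintro ⟨a, b, c, d⟩
          exact ⟨a, b, by omega, d⟩
      rw [this]
      exact ih

/-- Reachable targets. -/
def Reach (d : C₀(ℕ × ℤ, 𝕜)) : Prop :=
  ∀ M : ℕ, ∀ ε > 0, ∀ᶠ n : ℕ in atTop, ∃ s : C₀(ℕ × ℤ, 𝕜), ‖s‖ < ε ∧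
    ∀ (m : ℕ) (p : ℤ), ((op 𝕜 ^ n) s) (m, p) =
      d (m, p) + (if M < m ∧ (m : ℤ) ≤ n - p ∧ -p < m then (cC p : 𝕜) * d (0, p) else 0)

lemma Reach.zero : Reach (0 : C₀(ℕ × ℤ, 𝕜)) := by
  intro M ε hε
  refine Eventually.of_forall fun n => ⟨0, by simpa using hε, by simp⟩

lemma Reach.add {d d' : C₀(ℕ × ℤ, 𝕜)} (h : Reach d) (h' : Reach d') : Reach (d + d') := by
  intro M ε hε
  filter_upwards [h M (ε / 2) (half_pos hε), h' M (ε / 2) (half_pos hε)] with n h1 h2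
  obtain ⟨s, hs, hs'⟩ := h1
  obtain ⟨t, ht, ht'⟩ := h2
  refine ⟨s + t, ?_, ?_⟩
  · calc ‖s + t‖ ≤ ‖s‖ + ‖t‖ := norm_add_le _ _
      _ < ε := by linarith
  · intro m p
    rw [map_add, ZeroAtInftyContinuousMap.add_apply, hs', ht',
      ZeroAtInftyContinuousMap.add_apply, ZeroAtInftyContinuousMap.add_apply]
    split_ifs <;> ring

lemma Reach.smul {d : C₀(ℕ × ℤ, 𝕜)} (c : 𝕜) (h : Reach d) : Reach (c • d) := by
  intro M ε hε
  filter_upwards [h M (ε / (‖c‖ + 1)) (by positivity)] with n h1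
  obtain ⟨s, hs, hs'⟩ := h1
  refine ⟨c • s, ?_, ?_⟩
  · rw [norm_smul]
    have h2 : (‖c‖ + 1) * ‖s‖ < ε := by
      rwa [lt_div_iff₀' (by positivity)] at hs
    nlinarith [norm_nonneg s]
  · intro m p
    rw [map_smul, ZeroAtInftyContinuousMap.smul_apply, hs',
      ZeroAtInftyContinuousMap.smul_apply, ZeroAtInftyContinuousMap.smul_apply]
    simp only [smul_eq_mul]
    split_ifs <;> ring

lemma reach_row (m : ℕ) (hm : 1 ≤ m) (q : ℤ) : Reach (bas (m, q) : C₀(ℕ × ℤ, 𝕜)) := by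
  intro M ε hε
  filter_upwards [exact_bas (𝕜 := 𝕜) m hm q ε hε] with n h1
  obtain ⟨s, hs, hs'⟩ := h1
  refine ⟨s, hs, ?_⟩
  intro m' p
  have : (bas (m, q) : C₀(ℕ × ℤ, 𝕜)) (0, p) = 0 := by
    rw [bas_apply, if_neg]
    simp
    omega
  rw [hs', this]
  simp

lemma reach_row_zero (q : ℤ) : Reach (bas (0, q) : C₀(ℕ × ℤ, 𝕜)) := by
  have h0 : (bas (0, q) : C₀(ℕ × ℤ, 𝕜)) =
      (cC q : 𝕜) • ((((cC q)⁻¹ : ℝ) : 𝕜) • bas (0, q)) := by
    rw [smul_smul, ← RCLike.ofReal_mul, mul_inv_cancel₀ (cC_pos _).ne']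
    simp
  rw [h0]
  apply Reach.smul
  intro M ε hε
  have hpos : ∀ p : ℤ, 0 < dd p := fun p => by unfold dd; split_ifs <;> norm_num
  have hL : ∀ p : ℤ, p ≤ -((1 : ℕ) : ℤ) → dd p = 2 := by
    intro p hp
    unfold dd
    rw [if_pos]
    push_cast at hp
    omega
  have ht := prod_inv_tendsto (w := dd) hL q
  filter_upwards [exact_BB (𝕜 := 𝕜) q M (ε / 2) (half_pos hε),
    ht.eventually (gt_mem_nhds (half_pos hε)), eventually_ge_atTop (q + M).toNat] with n h1 h2 h3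
  obtain ⟨t, ht1, ht2⟩ := h1
  set P : ℝ := ∏ j ∈ Finset.range n, dd (q - 1 - (j : ℕ)) with hP
  have hPpos : 0 < P := Finset.prod_pos fun _ _ => hpos _
  set N : ℕ := (n - q).toNat with hN
  have hNn : (N : ℤ) = n - q := by omega
  refine ⟨((P⁻¹ : ℝ) : 𝕜) • EE (q - n) N - t, ?_, ?_⟩
  · have h4 : ‖((P⁻¹ : ℝ) : 𝕜) • (EE (q - n) N : C₀(ℕ × ℤ, 𝕜))‖ < ε / 2 := by
      rw [norm_smul, RCLike.norm_ofReal, abs_of_pos (by positivity)]
      calc P⁻¹ * ‖(EE (q - n) N : C₀(ℕ × ℤ, 𝕜))‖ ≤ P⁻¹ * 1 :=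
            mul_le_mul_of_nonneg_left (EE_norm_le _ _) (by positivity)
        _ = P⁻¹ := mul_one _
        _ < ε / 2 := h2
    calc ‖((P⁻¹ : ℝ) : 𝕜) • (EE (q - n) N : C₀(ℕ × ℤ, 𝕜)) - t‖
        ≤ ‖((P⁻¹ : ℝ) : 𝕜) • (EE (q - n) N : C₀(ℕ × ℤ, 𝕜))‖ + ‖t‖ := norm_sub_le _ _
      _ < ε := by linarith
  · intro m p
    have h5 : (op 𝕜 ^ n) (((P⁻¹ : ℝ) : 𝕜) • EE (q - n) N) = EE q N := by
      have h6 := line_source (𝕜 := 𝕜) (f := fun p => EE p N) (q := q)
        (w := dd) (n := n) (by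
          intro j hj
          rw [op_EE _ _ (by omega)]
          congr 2
          ring)
      rw [map_smul, h6, smul_smul, ← hP, ← RCLike.ofReal_mul, inv_mul_cancel₀ hPpos.ne']
      simp
    rw [map_sub, h5, ht2, ZeroAtInftyContinuousMap.sub_apply, EE_apply, BB_apply,
      ZeroAtInftyContinuousMap.smul_apply, ZeroAtInftyContinuousMap.smul_apply, bas_apply,
      bas_apply]
    by_cases hp : p = q
    · subst hp
      have h7 : (cC p : 𝕜) * (((cC p)⁻¹ : ℝ) : 𝕜) = 1 := by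
        rw [← RCLike.ofReal_mul, mul_inv_cancel₀ (cC_pos _).ne']
        simp
      by_cases hm : m = 0
      · subst hm
        simp
      · have h8 : ¬ ((m, p) : ℕ × ℤ) = (0, p) := by simpa using hm
        rw [if_pos rfl, if_neg hm, if_neg h8, if_pos rfl, smul_zero, zero_add, smul_eq_mul,
          mul_one, h7]
        by_cases h9 : m ≤ M
        · by_cases h10 : -p < (m : ℤ)
          · rw [if_pos ⟨by omega, h10⟩, if_pos ⟨rfl, hm, h9, h10⟩, if_neg (by omega)]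
            ring
          · rw [if_neg (by omega), if_neg (by omega), if_neg (by omega)]
            ring
        · rw [if_neg (by omega : ¬ (p = p ∧ m ≠ 0 ∧ m ≤ M ∧ -p < (m : ℤ)))]
          by_cases h10 : m ≤ N ∧ -p < (m : ℤ)
          · rw [if_pos h10, if_pos ⟨by omega, by omega, h10.2⟩]
            ring
          · rw [if_neg h10, if_neg (by omega)]
            ring
    · have h8 : ¬ ((m, p) : ℕ × ℤ) = (0, q) := by simp [hp]
      have h9 : ¬ ((0, p) : ℕ × ℤ) = (0, q) := by simp [hp]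
      rw [if_neg hp, if_neg h8, if_neg h9, if_neg (fun h => hp h.1)]
      simp

/-! ### The Baire category argument -/

/-- The finitely supported vectors. -/
noncomputable def SS (𝕜 : Type*) [RCLike 𝕜] : Submodule 𝕜 C₀(ℕ × ℤ, 𝕜) :=
  Submodule.span 𝕜 (Set.range bas)

lemma SS_dense : Dense (SS 𝕜 : Set C₀(ℕ × ℤ, 𝕜)) := by
  intro z
  refine mem_closure_of_tendsto (hasSum_bas z) (Eventually.of_forall fun F => ?_)
  exact Submodule.sum_mem _ fun v _ => Submodule.smul_mem _ _ (Submodule.subset_span ⟨v, rfl⟩)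

lemma reach_of_mem {d : C₀(ℕ × ℤ, 𝕜)} (hd : d ∈ SS 𝕜) : Reach d := by
  induction hd using Submodule.span_induction with
  | mem x hx =>
    obtain ⟨⟨m, p⟩, rfl⟩ := hx
    rcases Nat.eq_zero_or_pos m with rfl | hm
    · exact reach_row_zero p
    · exact reach_row m hm p
  | zero => exact Reach.zero
  | add x y _ _ hx hy => exact hx.add hy
  | smul c x _ hx => exact hx.smul c

lemma decay_of_mem {d : C₀(ℕ × ℤ, 𝕜)} (hd : d ∈ SS 𝕜) :
    Tendsto (fun n : ℕ => (op 𝕜 ^ n) d) atTop (𝓝 0) := by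
  induction hd using Submodule.span_induction with
  | mem x hx =>
    obtain ⟨⟨m, p⟩, rfl⟩ := hx
    rcases Nat.eq_zero_or_pos m with rfl | hm
    · exact decay_row_zero p
    · exact decay_row m hm p
  | zero => simp
  | add x y _ _ hx hy =>
    simp only [map_add]
    simpa using hx.add hy
  | smul c x _ hx =>
    simp only [map_smul]
    simpa using hx.const_smul c

lemma bounded_of_mem {d : C₀(ℕ × ℤ, 𝕜)} (hd : d ∈ SS 𝕜) :
    ∃ C, ∀ p : ℤ, cC p * ‖d (0, p)‖ ≤ C := by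
  induction hd using Submodule.span_induction with
  | mem x hx =>
    obtain ⟨⟨m, q⟩, rfl⟩ := hx
    refine ⟨cC q, fun p => ?_⟩
    rw [bas_apply]
    split_ifs with h
    · simp only [Prod.mk.injEq] at h
      rw [h.2]
      simp
    · simpa using (cC_pos q).le
  | zero => exact ⟨0, fun p => by simp⟩
  | add x y _ _ hx hy =>
    obtain ⟨C, hC⟩ := hx
    obtain ⟨D, hD⟩ := hy
    refine ⟨C + D, fun p => ?_⟩
    rw [ZeroAtInftyContinuousMap.add_apply]
    have h1 := mul_le_mul_of_nonneg_left (norm_add_le (x (0, p)) (y (0, p))) (cC_pos p).le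
    have h2 := hC p
    have h3 := hD p
    linarith
  | smul c x _ hx =>
    obtain ⟨C, hC⟩ := hx
    refine ⟨‖c‖ * C, fun p => ?_⟩
    rw [ZeroAtInftyContinuousMap.smul_apply, norm_smul]
    have h1 := mul_le_mul_of_nonneg_left (hC p) (norm_nonneg c)
    linarith

lemma target {d : C₀(ℕ × ℤ, 𝕜)} (hd : d ∈ SS 𝕜) : ∃ C, ∀ M : ℕ, ∀ ε > 0, ∀ᶠ n : ℕ in atTop,
    ∃ s : C₀(ℕ × ℤ, 𝕜), ‖s‖ < ε ∧ ‖(op 𝕜 ^ n) s‖ ≤ C ∧
      ∀ m ≤ M, ∀ p, ((op 𝕜 ^ n) s) (m, p) = d (m, p) := by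
  obtain ⟨C, hC⟩ := bounded_of_mem hd
  have hC0 : 0 ≤ C := le_trans (mul_nonneg (cC_pos 0).le (norm_nonneg _)) (hC 0)
  refine ⟨‖d‖ + C, fun M ε hε => ?_⟩
  filter_upwards [reach_of_mem hd M ε hε] with n hn
  obtain ⟨s, hs, hs'⟩ := hn
  refine ⟨s, hs, ?_, ?_⟩
  · rw [norm_le_iff (by positivity)]
    rintro ⟨m, p⟩
    rw [hs']
    refine (norm_add_le _ _).trans (add_le_add (norm_apply_le _ _) ?_)
    split_ifs
    · rw [norm_mul, RCLike.norm_ofReal, abs_of_pos (cC_pos p)]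
      exact hC p
    · simpa using hC0
  · intro m hm p
    rw [hs', if_neg (by omega), add_zero]

/-- The open sets of the Baire category argument. -/
def UU (d : C₀(ℕ × ℤ, 𝕜)) (C : ℝ) (j : ℕ) : Set C₀(ℕ × ℤ, 𝕜) :=
  ⋃ n : ℕ, ⋃ _ : j ≤ n, ({x | ‖(op 𝕜 ^ n) x‖ < C} ∩
    ⋂ v ∈ Finset.range (j + 1) ×ˢ Finset.Icc (-(j : ℤ)) j,
      {x | ‖((op 𝕜 ^ n) x) v - d v‖ < 1 / ((j : ℝ) + 1)})

lemma isOpen_UU (d : C₀(ℕ × ℤ, 𝕜)) (C : ℝ) (j : ℕ) : IsOpen (UU d C j) := by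
  unfold UU
  refine isOpen_iUnion fun n => isOpen_iUnion fun _ => IsOpen.inter ?_ ?_
  · exact isOpen_lt (op 𝕜 ^ n).continuous.norm continuous_const
  · refine isOpen_biInter_finset fun v _ => ?_
    refine isOpen_lt ?_ continuous_const
    exact (((ev v).continuous.comp (op 𝕜 ^ n).continuous).sub continuous_const).norm

lemma mem_UU {d : C₀(ℕ × ℤ, 𝕜)} {C : ℝ} {j : ℕ} {x : C₀(ℕ × ℤ, 𝕜)} :
    x ∈ UU d C j ↔ ∃ n, j ≤ n ∧ ‖(op 𝕜 ^ n) x‖ < C ∧ ∀ m ≤ j, ∀ p : ℤ, -(j : ℤ) ≤ p → p ≤ j →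
      ‖((op 𝕜 ^ n) x) (m, p) - d (m, p)‖ < 1 / ((j : ℝ) + 1) := by
  unfold UU
  simp only [mem_iUnion, mem_inter_iff, mem_iInter, mem_ofPred_eq, Finset.mem_product,
    Finset.mem_range, Finset.mem_Icc, Prod.forall, exists_prop]
  constructor
  · rintro ⟨n, h1, h2, h3⟩
    exact ⟨n, h1, h2, fun m hm p hp1 hp2 => h3 m p ⟨by omega, hp1, hp2⟩⟩
  · rintro ⟨n, h1, h2, h3⟩
    exact ⟨n, h1, h2, fun m p h => h3 m (by omega) p h.2.1 h.2.2⟩

lemma dense_UU {d : C₀(ℕ × ℤ, 𝕜)} (hd : d ∈ SS 𝕜) : ∃ C, ∀ j, Dense (UU d C j) := by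
  obtain ⟨C, hC⟩ := target hd
  refine ⟨C + 1, fun j => ?_⟩
  rw [Metric.dense_iff]
  intro x0 ε hε
  obtain ⟨u, hu, hu'⟩ := Metric.dense_iff.1 SS_dense x0 (ε / 2) (half_pos hε)
  have h1 := (tendsto_zero_iff_norm_tendsto_zero.1 (decay_of_mem hu'))
  have hj : (0 : ℝ) < 1 / ((j : ℝ) + 1) := by positivity
  have hj1 : 1 / ((j : ℝ) + 1) ≤ 1 := by
    rw [div_le_one (by positivity)]
    have : (0 : ℝ) ≤ j := Nat.cast_nonneg j
    linarith
  obtain ⟨n, ⟨hn1, hn2⟩, hn3⟩ := ((h1.eventually (gt_mem_nhds hj)).and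
    (hC j (ε / 2) (half_pos hε))).and (eventually_ge_atTop j) |>.exists
  obtain ⟨s, hs1, hs2, hs3⟩ := hn2
  refine ⟨u + s, ?_, ?_⟩
  · rw [Metric.mem_ball] at hu ⊢
    calc dist (u + s) x0 ≤ dist (u + s) u + dist u x0 := dist_triangle _ _ _
      _ = ‖s‖ + dist u x0 := by rw [dist_eq_norm]; congr 2; abel
      _ < ε := by linarith
  · rw [mem_UU]
    refine ⟨n, hn3, ?_, ?_⟩
    · rw [map_add]
      calc ‖(op 𝕜 ^ n) u + (op 𝕜 ^ n) s‖ ≤ ‖(op 𝕜 ^ n) u‖ + ‖(op 𝕜 ^ n) s‖ := norm_add_le _ _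
        _ < C + 1 := by linarith
    · intro m hm p _ _
      rw [map_add, ZeroAtInftyContinuousMap.add_apply, hs3 m hm p, add_sub_cancel_right]
      exact lt_of_le_of_lt (norm_apply_le _ _) hn1

lemma exists_vector (𝕜 : Type*) [RCLike 𝕜] : ∃ (x : C₀(ℕ × ℤ, 𝕜)) (D : Set C₀(ℕ × ℤ, 𝕜)),
    Dense D ∧ ∀ d ∈ D, ∃ C, ∀ j, x ∈ UU d C j := by
  have hsep : TopologicalSpace.IsSeparable (SS 𝕜 : Set C₀(ℕ × ℤ, 𝕜)) :=
    (Set.countable_range _).isSeparable.span
  obtain ⟨D, hDS, hDc, hD⟩ := hsep.exists_countable_dense_subset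
  have h1 : ∀ d : D, ∃ C, ∀ j, Dense (UU (d : C₀(ℕ × ℤ, 𝕜)) C j) := fun d => dense_UU (hDS d.2)
  choose Cf hCf using h1
  have : Countable D := hDc.to_subtype
  have hden := dense_iInter_of_isOpen
    (f := fun i : D × ℕ => UU (i.1 : C₀(ℕ × ℤ, 𝕜)) (Cf i.1) i.2)
    (fun i => isOpen_UU _ _ _) (fun i => hCf i.1 i.2)
  obtain ⟨x, hx⟩ := hden.nonempty
  rw [mem_iInter] at hx
  refine ⟨x, D, ?_, fun d hd => ⟨Cf ⟨d, hd⟩, fun j => hx (⟨d, hd⟩, j)⟩⟩
  exact dense_closure.1 (SS_dense.mono hD)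

/-! ### Conclusion -/

section Weak

variable {X : Type*} [NormedAddCommGroup X] [NormedSpace 𝕜 X]

lemma tendsto_weak_iff {u : ℕ → X} {y : X} :
    Tendsto (fun n => toWeakSpace 𝕜 X (u n)) atTop (𝓝 (toWeakSpace 𝕜 X y)) ↔
      ∀ φ : X →L[𝕜] 𝕜, Tendsto (fun n => φ (u n)) atTop (𝓝 (φ y)) :=
  WeakBilin.tendsto_iff_forall_eval_tendsto (B := (topDualPairing 𝕜 X).flip) fun a b h => by
    by_contra hne
    obtain ⟨f, hf⟩ := SeparatingDual.exists_separating_of_ne (R := 𝕜) hne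
    exact hf (DFunLike.congr_fun h f)

/-- Weakly convergent sequences are bounded. -/
lemma bounded_of_weak {u : ℕ → X} {y : X}
    (h : ∀ φ : X →L[𝕜] 𝕜, Tendsto (fun n => φ (u n)) atTop (𝓝 (φ y))) :
    ∃ C, ∀ n, ‖u n‖ ≤ C := by
  have h1 : ∀ φ : StrongDual 𝕜 X, ∃ C, ∀ n,
      ‖(NormedSpace.inclusionInDoubleDual 𝕜 X (u n)) φ‖ ≤ C := by
    intro φ
    have h2 := (h φ).norm.bddAbove_range
    obtain ⟨C, hC⟩ := h2
    refine ⟨C, fun n => ?_⟩
    exact hC ⟨n, rfl⟩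
  obtain ⟨C, hC⟩ := banach_steinhaus h1
  refine ⟨C, fun n => ?_⟩
  rw [← (NormedSpace.inclusionInDoubleDualLi 𝕜 (E := X)).norm_map (u n)]
  exact hC n

end Weak

theorem weakSeq (𝕜 : Type*) [RCLike 𝕜] : WeakSeqHypercyclic (op 𝕜) := by
  obtain ⟨x, D, hD, hx⟩ := exists_vector 𝕜
  refine ⟨x, fun C hC hsub => ?_⟩
  -- the elements of `D` are weak limits of orbit sequences
  have h1 : ∀ d ∈ D, toWeakSpace 𝕜 _ d ∈ C := by
    intro d hd
    obtain ⟨R, hR⟩ := hx d hd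
    simp only [mem_UU] at hR
    choose n hn1 hn2 hn3 using hR
    refine hC (x := fun j => toWeakSpace 𝕜 _ ((op 𝕜 ^ (n j)) x)) (fun j => hsub ⟨n j, rfl⟩) ?_
    rw [tendsto_weak_iff]
    refine weak_of_coord (C := R) (fun j => (hn2 j).le) ?_
    rintro ⟨m, p⟩
    rw [tendsto_iff_norm_sub_tendsto_zero]
    refine squeeze_zero' (Eventually.of_forall fun _ => norm_nonneg _) ?_
      tendsto_one_div_add_atTop_nhds_zero_nat
    filter_upwards [eventually_ge_atTop m, eventually_ge_atTop p.natAbs] with j hj1 hj2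
    exact (hn3 j m hj1 p (by omega) (by omega)).le
  -- conclude by density
  rw [Set.eq_univ_iff_forall]
  intro y
  obtain ⟨z, rfl⟩ := (toWeakSpace 𝕜 C₀(ℕ × ℤ, 𝕜)).surjective y
  obtain ⟨v, hv1, hv2⟩ := mem_closure_iff_seq_limit.1 (hD z)
  refine hC (x := fun j => toWeakSpace 𝕜 _ (v j)) (fun j => h1 _ (hv1 j)) ?_
  exact ((toWeakSpaceCLM 𝕜 C₀(ℕ × ℤ, 𝕜)).continuous.tendsto z).comp hv2

/-- The vector with coordinates `1 / (p + 1)` in the row `0`. -/
noncomputable def slow (𝕜 : Type*) [RCLike 𝕜] : C₀(ℕ × ℤ, 𝕜) :=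
  mkC (fun v => if v.1 = 0 ∧ 0 ≤ v.2 then ((1 / ((v.2 : ℝ) + 1) : ℝ) : 𝕜) else 0) (by
    rw [Metric.tendsto_nhds]
    intro ε hε
    rw [Filter.eventually_cofinite]
    refine (({0} ×ˢ Finset.Icc (0 : ℤ) ⌈1 / ε⌉).finite_toSet).subset ?_
    rintro ⟨m, p⟩ hv
    simp only [mem_ofPred_eq, dist_zero_right, not_lt] at hv
    simp only [Finset.coe_product, Finset.coe_singleton, Finset.coe_Icc, mem_prod,
      mem_singleton_iff, mem_Icc]
    by_cases h : m = 0 ∧ 0 ≤ p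
    · refine ⟨h.1, h.2, ?_⟩
      rw [if_pos h] at hv
      have hp : (0 : ℝ) ≤ p := by exact_mod_cast h.2
      rw [RCLike.norm_ofReal, abs_of_nonneg (by positivity), le_div_iff₀ (by positivity)] at hv
      have h2 : (p : ℝ) ≤ 1 / ε := by
        rw [le_div_iff₀ hε]
        nlinarith
      exact_mod_cast h2.trans (Int.le_ceil _)
    · rw [if_neg h] at hv
      simp at hv
      linarith)

lemma slow_apply (p : ℕ) : (slow 𝕜) (0, (p : ℤ)) = ((1 / ((p : ℝ) + 1) : ℝ) : 𝕜) := by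
  unfold slow
  rw [mkC_apply, if_pos ⟨rfl, by omega⟩]
  simp

theorem not_weakOneSeq (𝕜 : Type*) [RCLike 𝕜] : ¬ WeakOneSeqHypercyclic (op 𝕜) := by
  rintro ⟨x, hx⟩
  -- all nonzero real multiples of `slow` are in the orbit
  have key : ∀ t : ℝ, t ≠ 0 →
      ((t : 𝕜) • slow 𝕜) ∈ Set.range fun n : ℕ => (op 𝕜 ^ n) x := by
    intro t ht
    by_contra hcon
    have hne : ∀ n : ℕ, (op 𝕜 ^ n) x ≠ (t : 𝕜) • slow 𝕜 := fun n h => hcon ⟨n, h⟩
    obtain ⟨u, hu1, hu2⟩ := hx (toWeakSpace 𝕜 _ ((t : 𝕜) • slow 𝕜))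
    choose n hn using hu1
    have hu3 : u = fun k => toWeakSpace 𝕜 _ ((op 𝕜 ^ (n k)) x) := by
      funext k
      exact (hn k).symm
    rw [hu3, tendsto_weak_iff] at hu2
    obtain ⟨C, hC⟩ := bounded_of_weak hu2
    -- the times tend to infinity
    have htime : ∀ p : ℕ, ∀ᶠ k in atTop, p < n k := by
      intro p
      have h1 : ∀ j ∈ Finset.range (p + 1), ∀ᶠ k in atTop, n k ≠ j := by
        intro j _
        have h2 : ∃ v, ((op 𝕜 ^ j) x) v ≠ ((t : 𝕜) • slow 𝕜) v := by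
          by_contra h3
          push Not at h3
          exact hne j (ZeroAtInftyContinuousMap.ext h3)
        obtain ⟨v, hv⟩ := h2
        have h4 := hu2 (ev v)
        simp only [ev_apply] at h4
        filter_upwards [h4.eventually_ne hv.symm] with k hk hkj
        apply hk
        rw [hkj]
      filter_upwards [(Filter.eventually_all_finset _).2 h1] with k hk
      by_contra h
      push Not at h
      exact hk (n k) (Finset.mem_range.2 (by omega)) rfl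
    -- the coordinate estimate
    have hest : ∀ p : ℕ, |t| ≤ (((p : ℝ) ^ 1 / 2 ^ p) + (1 / 2) ^ p) * (C + ‖x‖) := by
      intro p
      have h4 := (hu2 (ev (0, (p : ℤ)))).norm.const_mul ((2 : ℝ) ^ p)
      simp only [ev_apply] at h4
      have h5 : (2 : ℝ) ^ p * ‖((t : 𝕜) • slow 𝕜) (0, (p : ℤ))‖ ≤ C + ‖x‖ := by
        refine le_of_tendsto h4 ?_
        filter_upwards [htime p] with k hk
        exact (op_bound x p (n k) hk).trans (by linarith [hC k])
      rw [ZeroAtInftyContinuousMap.smul_apply, slow_apply, norm_smul, RCLike.norm_ofReal,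
        RCLike.norm_ofReal, abs_of_pos (by positivity : (0 : ℝ) < 1 / ((p : ℝ) + 1))] at h5
      have h6 : (((p : ℝ) ^ 1 / 2 ^ p) + (1 / 2) ^ p) = ((p : ℝ) + 1) / 2 ^ p := by
        rw [pow_one, one_div, inv_pow]
        ring
      rw [h6]
      have h7 : |t| = ((p : ℝ) + 1) / 2 ^ p * (2 ^ p * (|t| * (1 / ((p : ℝ) + 1)))) := by
        field_simp
      rw [h7]
      exact mul_le_mul_of_nonneg_left h5 (by positivity)
    have hlim : Tendsto (fun p : ℕ => (((p : ℝ) ^ 1 / 2 ^ p) + (1 / 2) ^ p) * (C + ‖x‖))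
        atTop (𝓝 ((0 + 0) * (C + ‖x‖))) := by
      refine (Tendsto.add ?_ ?_).mul_const _
      · exact tendsto_pow_const_div_const_pow_of_one_lt 1 (by norm_num)
      · exact tendsto_pow_atTop_nhds_zero_of_lt_one (by norm_num) (by norm_num)
    have h8 := ge_of_tendsto' hlim hest
    simp only [add_zero, zero_mul] at h8
    exact ht (abs_eq_zero.1 (le_antisymm h8 (abs_nonneg t)))
  -- but the orbit is countable
  have hinj : Function.Injective fun t : ℝ => (t : 𝕜) • slow 𝕜 := by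
    intro a b hab
    have h1 := congrArg (fun z : C₀(ℕ × ℤ, 𝕜) => z (0, ((0 : ℕ) : ℤ))) hab
    simp only [ZeroAtInftyContinuousMap.smul_apply, slow_apply] at h1
    simpa using h1
  have hcount : (Set.univ : Set ℝ).Countable := by
    have h1 := (Set.countable_range fun n : ℕ => (op 𝕜 ^ n) x).preimage_of_injOn
      (f := fun t : ℝ => (t : 𝕜) • slow 𝕜) hinj.injOn
    refine (h1.union (Set.countable_singleton (0 : ℝ))).mono ?_
    intro t _
    by_cases ht : t = 0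
    · right
      exact ht
    · left
      exact key t ht
  exact Set.not_countable_univ hcount

/-- **Main theorem.** Over `𝕜 = ℝ` or `𝕜 = ℂ` there is a bounded linear operator on the Banach
space `c_0` (indexed by `ℕ × ℤ`) which is weakly sequentially hypercyclic but not weakly
1-sequentially hypercyclic. -/
theorem result (𝕜 : Type) [RCLike 𝕜] :
    ∃ T : C₀(ℕ × ℤ, 𝕜) →L[𝕜] C₀(ℕ × ℤ, 𝕜),
      CompleteSpace C₀(ℕ × ℤ, 𝕜) ∧ WeakSeqHypercyclic T ∧ ¬ WeakOneSeqHypercyclic T :=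
  ⟨op 𝕜, inferInstance, weakSeq 𝕜, not_weakOneSeq 𝕜⟩

end Operator

end Pool.Agent.Results.MP_08c933_an.SeqNotOneSeq
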